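import Pool.Agent.Q293.RT.JGS
import Pool.Agent.Q293.RT.JGP
import Pool.Agent.Q293.RT.JF1
import Pool.Agent.Q293.RT.JF3
import Pool.Agent.Q293.RT.JF2
import Pool.Agent.Q293.RT.JBEL
import Pool.Agent.Q293.RT.JABV
import Pool.Agent.Q293.RT.JGDV
import Pool.Agent.Q293.RT.JMAX
import Pool.Agent.Q293.RT.JLOC
import Pool.Agent.Q293.RT.JACT
import Pool.Agent.Q293.RT.JAFL
import Pool.Agent.Q293.RT.JPLY
import Pool.Agent.Q293.RT.JTLG
import Pool.Agent.Q293.RT.JCTI
import Pool.Agent.Q293.RT.JCHU
import Pool.Agent.Q293.RT.JAUT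
import Pool.Agent.Q293.RT.JISO
import Pool.Agent.Q293.RT.JPOL
import Pool.Agent.Q293.RT.JFIT
import Pool.Agent.Q293.RT.JFNB
import Pool.Agent.Q293.RT.JTIL
import Pool.Agent.Q293.RT.JFIX
import Pool.Agent.Q293.RT.JATM
import Pool.Agent.Q293.RT.JDIM
import Pool.Agent.Q293.RT.JCOP
import Pool.Agent.Q293.RT.JCUF
import Pool.Agent.Q293.RT.JCFL
import Pool.Agent.Q293.RT.JCMB
import Pool.Agent.Q293.RT.JAUG
import Pool.Agent.Q293.RT.JLFC
import Pool.Agent.Q293.RT.JMOV
import Pool.Agent.Q293.RT.JCRE
import Pool.Agent.Q293.RT.JVTX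
import Pool.Agent.Q293.RT.JRIG
import Pool.Agent.Q293.RT.JTRK
import Pool.Agent.Q293.RT.JSQE
import Pool.Agent.Q293.RT.JFVE
import Pool.Agent.Q293.RT.JPAI
import Pool.Agent.Q293.RT.JSYQ
import Pool.Agent.Q293.RT.JSQR
import Pool.Agent.Q293.RT.JNIS

/-!
# A combinatorially regular LFC tiling of Euclidean 3-space (MP_389659_co, Q1)

There is a locally finite face-to-face tiling of Euclidean 3-space by convex polytopes which is
combinatorially regular and whose face lattice is not isomorphic to the face lattice of a regular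
tiling.  The tiling is the vertical projection of the boundary of the convex hull of the vertices
of the hyperbolic honeycomb of type 4,3,5 in Minkowski space; its tiles are parallelepipeds, five
around each edge.
-/

namespace Pool.Agent.Results.MP_389659_co.CombRegular435

open Pool.Agent.Q293.RT

theorem result : ∃ T : Set (Set (Eu 3)), IsLFCTiling T ∧ CombRegular T ∧
    ∀ T' : Set (Set (Eu 3)), IsLFCTiling T' → MetricRegular T' →
      IsEmpty (FaceLat T ≃o FaceLat T') :=
  assembly JGS.main JGP.main JF1.main JF3.main JF2.main JBEL.main JABV.main JGDV.main JMAX.main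
    JLOC.main JACT.main JAFL.main JPLY.main JTLG.main JCTI.main JCHU.main JAUT.main JISO.main
    JPOL.main JFIT.main JFNB.main JTIL.main JFIX.main JATM.main JDIM.main JCOP.main JCUF.main
    JCFL.main JCMB.main JAUG.main JLFC.main JMOV.main JCRE.main JVTX.main JRIG.main JTRK.main
    JSQE.main JFVE.main JPAI.main JSYQ.main JSQR.main JNIS.main

end Pool.Agent.Results.MP_389659_co.CombRegular435
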